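import Pool.Agent.H24.UG.T7
import Pool.Agent.H81.AG.FIN

/-!
UNIFORM LOCAL GAP (`MP_c59857_nt`): row UFI, from a set with small mismatch to closeness.
-/

set_option autoImplicit false

open MeasureTheory ProbabilityTheory Filter Topology Finset
open scoped Nat ENNReal

namespace Pool.Agent.H69.UG

open Pool.Agent.H24.UG
open Pool.Agent.H67.AG (avgP ul Inv Rt Av SA kap JJ TT InvZ nxt triv tow XN PN TN XX PX TX prX Fac
  Tup dl Dlt Mis bd κ₀ Sw SwE)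
open Pool.Agent.H81.AG (dl_bd dl_meas dl_int mis_int mis_setInt rt_le inv_le_rt int_of_bdd)

theorem dt_meas (c : CxE) (i : Fin c.k) : Measurable (c.Dt i) := by
  unfold Cx.Dt
  exact c.Dm.comp (c.T.measurable.iterate _)

theorem tupD1 (c : CxE) : Tup c.D1 :=
  ⟨fun i => (dt_meas c i).comp measurable_fst, fun _ _ => c.Dv _⟩

theorem tupD2 (c : CxE) : Tup c.D2 :=
  ⟨fun i => (dt_meas c i).comp measurable_snd, fun _ _ => c.Dv _⟩

theorem pf_UFI (htri : Pool.Agent.H67.AG.T_TRI) (hmc : Pool.Agent.H67.AG.T_MC)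
    (hj2 : Pool.Agent.H67.AG.T_J2) (hj3 : Pool.Agent.H67.AG.T_J3) : T_UFI := by
  intro c Z R _ W X1 B θ hZ hmp hac hW hX1 hX1g hB hMis hBX hθ
  have hmpT : MeasurePreserving c.T c.μ c.μ := c.erg.toMeasurePreserving
  obtain ⟨hpr, -, -, -⟩ := hj2 c.X c.μ Z
  have hJ := (hj3 c.X c.μ c.T Z hmpT hZ).1
  have hBR : MeasurableSet[Rt (TT c.T)] B := inv_le_rt (TT c.T) hW B hB
  have hBm : MeasurableSet B := rt_le (TT c.T) B hBR
  have hX1m : MeasurableSet X1 := rt_le c.T X1 hX1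
  have hMC := (hmc (c.X × c.X) (JJ c.μ Z) R (TT c.T) c.k c.D1 c.D2 hJ hmp hac (tupD1 c)
    (tupD2 c)).2
  have hnn := (htri (c.X × c.X) (Rt (TT c.T)) R c.k c.D1 c.D2 c.D1 (rt_le _) (tupD1 c)
    (tupD2 c) (tupD1 c)).2.2
  have hint : Integrable (Mis R (Rt (TT c.T)) c.D1 c.D2) R := mis_int (Rt (TT c.T)) R
  have hint' : Integrable (Mis R (Inv (TT c.T) W) c.D1 c.D2) R := mis_int (Inv (TT c.T) W) R
  have h1 : ∫ q in B, Mis R (Rt (TT c.T)) c.D1 c.D2 q ∂(R) ≤ c.γ / 4 * R.real B := by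
    rw [mis_setInt (Rt (TT c.T)) R (rt_le _) (tupD1 c) (tupD2 c) B hBR,
      ← mis_setInt (Inv (TT c.T) W) R (MeasurableSpace.invariants_le _) (tupD1 c) (tupD2 c) B hB]
    calc ∫ q in B, Mis R (Inv (TT c.T) W) c.D1 c.D2 q ∂(R) ≤ ∫ _q in B, (c.γ / 4) ∂(R) := by
          refine integral_mono_ae hint'.integrableOn (integrable_const _) ?_
          rw [Filter.EventuallyLE, ae_restrict_iff' hBm]
          exact hMis
      _ = c.γ / 4 * R.real B := by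
          rw [setIntegral_const, smul_eq_mul, mul_comm]
  have hS : MeasurableSet {q : c.X × c.X | q.1 ∈ X1 ∧ q.2 ∈ X1} :=
    (measurable_fst hX1m).inter (measurable_snd hX1m)
  unfold CxE.CP
  by_contra hcp
  have hz : (JJ c.μ Z).real {q | q.1 ∈ c.Xg ∧ q.2 ∈ c.Xg ∧
      Mis (JJ c.μ Z) (Rt (TT c.T)) c.D1 c.D2 q ≤ c.γ / 2} = 0 :=
    le_antisymm (not_lt.1 hcp) measureReal_nonneg
  have hz' : (JJ c.μ Z) {q | q.1 ∈ c.Xg ∧ q.2 ∈ c.Xg ∧
      Mis (JJ c.μ Z) (Rt (TT c.T)) c.D1 c.D2 q ≤ c.γ / 2} = 0 := by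
    rw [measureReal_eq_zero_iff] at hz
    exact hz
  have hR0 := hac hz'
  have hgt : ∀ᵐ q ∂(R), q ∈ B ∩ {q : c.X × c.X | q.1 ∈ X1 ∧ q.2 ∈ X1} →
      (c.γ / 2) ≤ Mis R (Rt (TT c.T)) c.D1 c.D2 q := by
    have h2 : ∀ᵐ q ∂(R), q ∉ {q | q.1 ∈ c.Xg ∧ q.2 ∈ c.Xg ∧
      Mis (JJ c.μ Z) (Rt (TT c.T)) c.D1 c.D2 q ≤ c.γ / 2} := measure_eq_zero_iff_ae_notMem.1 hR0
    filter_upwards [h2, hMC] with q hq hq' hqB
    rw [hq']
    by_contra h3
    exact hq ⟨hX1g hqB.2.1, hX1g hqB.2.2, (not_le.1 h3).le⟩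
  have h2 : c.γ / 2 * R.real (B ∩ {q : c.X × c.X | q.1 ∈ X1 ∧ q.2 ∈ X1}) ≤
      ∫ q in B, Mis R (Rt (TT c.T)) c.D1 c.D2 q ∂(R) := by
    calc c.γ / 2 * R.real (B ∩ {q : c.X × c.X | q.1 ∈ X1 ∧ q.2 ∈ X1}) =
        ∫ _q in B ∩ {q : c.X × c.X | q.1 ∈ X1 ∧ q.2 ∈ X1}, (c.γ / 2) ∂(R) := by
          rw [setIntegral_const, smul_eq_mul, mul_comm]
      _ ≤ ∫ q in B ∩ {q : c.X × c.X | q.1 ∈ X1 ∧ q.2 ∈ X1},
          Mis R (Rt (TT c.T)) c.D1 c.D2 q ∂(R) := by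
          refine integral_mono_ae (integrable_const _) hint.integrableOn ?_
          rw [Filter.EventuallyLE, ae_restrict_iff' (hBm.inter hS)]
          exact hgt
      _ ≤ ∫ q in B, Mis R (Rt (TT c.T)) c.D1 c.D2 q ∂(R) := by
          refine setIntegral_mono_set hint.integrableOn ?_
            (Filter.Eventually.of_forall fun _ h => h.1)
          rw [Filter.EventuallyLE]
          refine ae_restrict_of_ae ?_
          filter_upwards [hnn] with q hq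
          exact hq.1
  have h3 : R.real B ≤ R.real (B ∩ {q : c.X × c.X | q.1 ∈ X1 ∧ q.2 ∈ X1}) + θ := by
    have h4 : R.real (B ∩ {q : c.X × c.X | q.1 ∈ X1 ∧ q.2 ∈ X1}) +
        R.real (B \ {q : c.X × c.X | q.1 ∈ X1 ∧ q.2 ∈ X1}) = R.real B :=
      measureReal_inter_add_sdiff hS
    linarith
  have h5 := c.γ0
  have h6 : c.γ * R.real B ≤ c.γ * (R.real (B ∩ {q : c.X × c.X | q.1 ∈ X1 ∧ q.2 ∈ X1}) + θ) :=
    mul_le_mul_of_nonneg_left h3 h5.le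
  have h7 : c.γ * (2 * θ) < c.γ * R.real B := mul_lt_mul_of_pos_left hθ h5
  nlinarith

end Pool.Agent.H69.UG
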